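import Pool.Agent.W2helper32.KR.Fin

/-!
# The Knörr-Robinson conjecture: a congruence modulo one prime decides

`KRC p G` says `E p G = z_p(G)`, where `E p G = k(G) - χ₂(S_G^{p+*}, G)` is minus the reduced second
equivariant Euler characteristic and `z_p(G) = numDefectZero p G`. Let `q` be any prime (`q = p` is
allowed). If a class of finite groups is closed under wreath products with the regular group of order
`q`, for instance the class of all finite groups, the conjecture holds in the class as soon as
`E p G ≡ z_p(G)` modulo `q` there.

Proof. The formulas for `E` and `z_p` of wreath products (`WreathProducts`) give for `H` of order `q`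
in its regular action `q D(G ≀ H) = E^q - z^q + (q e - 1) D(G)` with `D = E - z`; hence `q^k ∣ D(G)`,
`q^k ∣ D(G ≀ H)` imply `q^(k+1) ∣ D(G)` for `k ≥ 1`.
-/

set_option autoImplicit false

open scoped Classical

noncomputable section

namespace Pool.Agent.Results.MP_b6945b_al.OnePrimeDecides

open Pool.Agent.Y63.KR (chi2 KRC)
open Pool.Agent.Y63.AWC (numDefectZero)

/-- `k(G) - χ₂(S_G^{p+*}, G)`, minus the reduced second equivariant Euler characteristic of the poset of
the nontrivial `p`-subgroups. -/
def E (p : ℕ) (G : Type) [Group G] : ℚ := (Nat.card (ConjClasses G) : ℚ) - chi2 p G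

/-- The wreath product `G ≀ C_q` of `G` and a group of order `q` in its regular action: the semidirect
product of the group of all functions `C_q → G` and `C_q`, where `h` maps `f` to `x ↦ f (h⁻¹ x)`. -/
abbrev WreathC (G : Type) [Group G] (q : ℕ) : Type :=
  (Multiplicative (ZMod q) → G) ⋊[mulAutArrow (G := Multiplicative (ZMod q))
    (A := Multiplicative (ZMod q)) (M := G)] Multiplicative (ZMod q)

/-- Let `p` and `q` be primes (`q = p` is allowed) and `C` a class of finite groups closed under wreath
products with the regular group of order `q`. The Knörr-Robinson conjecture at `p` holds for all groups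
in `C` if and only if `E(G) ≡ z_p(G)` modulo `q` for all groups in `C`. -/
theorem result (p : ℕ) [Fact p.Prime] (q : ℕ) [Fact q.Prime] (C : (G : Type) → Group G → Prop)
    (hfin : ∀ (G : Type) [i : Group G], C G i → Finite G)
    (hC : ∀ (G : Type) [i : Group G], C G i → C (WreathC G q) inferInstance) :
    (∀ (G : Type) [i : Group G], C G i → KRC p G) ↔
      ∀ (G : Type) [i : Group G], C G i → ∃ u : ℤ, E p G - (numDefectZero p G : ℚ) = q * u := by
  have hE : ∀ (G : Type) [Group G] [Finite G], E p G = (Pool.Agent.Q90.WR.altK p G : ℚ) :=
    fun G _ _ => (Pool.Agent.Y63.KR.altSum_classes (p := p) (G := G)).symm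
  have hdvd : ∀ (n : ℤ) (a b : ℤ), (∃ u : ℤ, (a : ℚ) - (b : ℚ) = n * u) ↔ n ∣ a - b := by
    intro n a b
    constructor
    · rintro ⟨u, hu⟩
      exact ⟨u, by exact_mod_cast hu⟩
    · rintro ⟨u, hu⟩
      exact ⟨u, by exact_mod_cast hu⟩
  rw [Pool.Agent.W2helper32.KR.criterion q C hfin hC]
  refine forall_congr' fun G => forall_congr' fun i => forall_congr' fun hG => ?_
  haveI := hfin G hG
  rw [hE]
  exact (hdvd q _ _).symm

end Pool.Agent.Results.MP_b6945b_al.OnePrimeDecides
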