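import Pool.Agent.W2helper32.KR.Fin

/-!
# A form of the Knörr-Robinson conjecture without characters

Let `Π_p` be the fundamental group of the closed orientable surface of genus `p`. The conjecture holds
at the prime `p` for all finite groups if and only if `|G| E(G) ≡ |Hom(Π_p, G)|` modulo `p |G|` for all
finite groups `G`, where `E p G = k(G) - χ₂(S_G^{p+*}, G)`.

Proof. By Frobenius and Mednykh `|Hom(Π_p, G)| / |G|` is the sum of `(|G| / χ(1))^(2p-2)` over the
irreducible characters; modulo `p` it is the number `z_p(G)` of the characters of defect zero. So the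
right hand side is the congruence `E(G) ≡ z_p(G)` modulo `p`, which decides by the theorem of
`OnePrimeDecides` with `q = p`.
-/

set_option autoImplicit false

open scoped Classical

noncomputable section

namespace Pool.Agent.Results.MP_b6945b_al.SurfaceGroupCriterion

open Pool.Agent.Y63.KR (chi2 KRC)

/-- `k(G) - χ₂(S_G^{p+*}, G)`, minus the reduced second equivariant Euler characteristic of the poset of
the nontrivial `p`-subgroups. -/
def E (p : ℕ) (G : Type) [Group G] : ℚ := (Nat.card (ConjClasses G) : ℚ) - chi2 p G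

/-- `|Hom(Π_g, G)|` for the fundamental group `Π_g` of the closed orientable surface of genus `g`: the
number of `2g`-tuples with `∏ a_i b_i a_i⁻¹ b_i⁻¹ = 1`. -/
def surf (g : ℕ) (G : Type) [Group G] : ℕ :=
  Nat.card {q : Fin g → G × G //
    (List.ofFn fun i => (q i).1 * (q i).2 * (q i).1⁻¹ * (q i).2⁻¹).prod = 1}

/-- Let `p` be a prime. The Knörr-Robinson conjecture at `p` holds for all finite groups if and only if
`|G| E(G) ≡ |Hom(Π_p, G)|` modulo `p |G|` for all finite groups `G`. -/
theorem result (p : ℕ) [Fact p.Prime] :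
    (∀ (G : Type) [Group G] [Finite G], KRC p G) ↔
      ∀ (G : Type) [Group G] [Finite G],
        ∃ u : ℤ, (Nat.card G : ℚ) * E p G - (surf p G : ℚ) = p * Nat.card G * u := by
  have hE : ∀ (G : Type) [Group G] [Finite G], E p G = (Pool.Agent.Q90.WR.altK p G : ℚ) :=
    fun G _ _ => (Pool.Agent.Y63.KR.altSum_classes (p := p) (G := G)).symm
  have hdvd : ∀ (n : ℤ) (a b : ℤ), (∃ u : ℤ, (a : ℚ) - (b : ℚ) = n * u) ↔ n ∣ a - b := by
    intro n a b
    constructor
    · rintro ⟨u, hu⟩
      exact ⟨u, by exact_mod_cast hu⟩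
    · rintro ⟨u, hu⟩
      exact ⟨u, by exact_mod_cast hu⟩
  rw [Pool.Agent.W2helper32.KR.criterion_surf]
  refine forall_congr' fun G => forall_congr' fun _ => forall_congr' fun _ => ?_
  have h0 : (Nat.card G : ℚ) ≠ 0 := by exact_mod_cast Nat.card_pos.ne'
  have h1 : (surf p G : ℚ) = Nat.card G * (Pool.Agent.Y63.KR.surfaceCount p G : ℚ) := by
    have h2 := Pool.Agent.Y63.KR.card_mul_surfaceCount (G := G) (p - 1)
    rw [Nat.sub_add_cancel (Fact.out : p.Prime).one_lt.le] at h2
    exact_mod_cast h2.symm
  rw [← hdvd, h1, hE]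
  refine exists_congr fun u => ?_
  rw [← mul_sub, show (p : ℚ) * Nat.card G * u = Nat.card G * (p * u) by ring,
    mul_right_inj' h0]
  push_cast
  rfl

end Pool.Agent.Results.MP_b6945b_al.SurfaceGroupCriterion
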