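import Pool.Agent.W2helper32.KR.Fin

/-!
# The Knörr-Robinson conjecture for wreath products with arbitrary permutation groups

`KRC p G` says `E p G = z_p(G)`, where `E p G = k(G) - χ₂(S_G^{p+*}, G)` is minus the reduced second
equivariant Euler characteristic and `z_p(G) = numDefectZero p G`. Let the finite group `H` act on the
finite set `X`. Both `|H| E(G ≀_X H)` and `|H| z_p(G ≀_X H)` are computed from `E(G)` and `z_p(G)` and
from the values at the stabilisers in `H` of the colourings of `X`; so the conjecture for `G` and these
stabilisers implies it for `G ≀_X H`.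

Outline of the proof. `|G| E(G)` is the sum over the commuting pairs `(x, y)` of the alternating sum `W`
over the chains of nontrivial `p`-subgroups normalised by `x` and `y`, that is, a sum over the
homomorphisms of `ℤ²` to `G`. For `Γ = G ≀ H` and a commuting pair of `Γ` the poset of the invariant
`p`-subgroups `Q` is split at the subgroups which meet the base group `G^X` trivially; the others are
compared, by a Galois connection, with the families of invariant subgroups of `G` indexed by the orbits.
A subgroup `U` with `U ∩ G^X = 1` and the pair generate an extension of `ℤ²` by the `p`-group `U`; its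
orbits on `X` have point stabilisers which are again extensions of groups isomorphic to `ℤ²` by
`p`-groups, and homomorphisms to `G` which are not trivial on this `p`-group do not contribute. So each
orbit gives the same factor, and the sum is `∑ m(x, y, V) E(G)^{number of orbits of ⟨x, y, V⟩}` over the
commuting pairs `(x, y)` of `H` and the `p`-subgroups `V` of `H` normalised by them, where `m` is the
Möbius function of the poset of these subgroups. This is a polynomial in `E(G)`; its value at `m ∈ ℕ` is
found by counting colourings. The formula for `z_p` follows from Clifford theory (the outer products of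
characters extend to their inertia groups).
-/

set_option autoImplicit false

open scoped Classical

noncomputable section

namespace Pool.Agent.Results.MP_b6945b_al.WreathProducts

open Pool.Agent.Y63.KR (chi2 KRC)
open Pool.Agent.Y63.AWC (numDefectZero)

/-- `k(G) - χ₂(S_G^{p+*}, G)`, minus the reduced second equivariant Euler characteristic of the poset of
the nontrivial `p`-subgroups. -/
def E (p : ℕ) (G : Type) [Group G] : ℚ := (Nat.card (ConjClasses G) : ℚ) - chi2 p G

/-- The wreath product `G ≀_X H` of `G` and a group `H` acting on `X`: the semidirect product of the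
group of all functions `X → G` and `H`, where `h` maps `f` to the function `x ↦ f (h⁻¹ x)`. -/
abbrev Wreath (G H X : Type) [Group G] [Group H] [MulAction H X] : Type :=
  (X → G) ⋊[mulAutArrow (G := H) (A := X) (M := G)] H

/-- The stabiliser `H_c` in `H` of the colouring `c` of `X`. -/
def stab (H : Type) {X C : Type} [Group H] [MulAction H X] (c : X → C) : Subgroup H where
  carrier := {h | ∀ x, c (h • x) = c x}
  one_mem' := fun x => by rw [one_smul]
  mul_mem' := fun {g h} hg hh x => by rw [mul_smul, hg, hh]
  inv_mem' := fun {g} hg x => by
    have := hg (g⁻¹ • x)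
    rw [smul_inv_smul] at this
    exact this.symm

/-- Let `p` be a prime and let the finite group `H` act on the finite set `X`. There is a polynomial
`Q` with integral coefficients such that `Q(m) = ∑_c |H_c| E(H_c)`, the sum over the colourings `c` of
`X` with `m` colours, for all `m`, and `|H| E(G ≀_X H) = Q(E(G))` for all finite groups `G`; and
`|H| z_p(G ≀_X H) = ∑_c |H_c| z_p(H_c)`, the sum over the colourings with `z_p(G)` colours. If the
conjecture holds for `G` and for the stabilisers `H_c` of these colourings, it holds for `G ≀_X H`;
in particular, if it holds for `G` and `H` is a `p`-group or a `p'`-group. -/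
theorem result (p : ℕ) [Fact p.Prime] (H X : Type) [Group H] [Finite H] [MulAction H X] [Finite X] :
    (∃ Q : Polynomial ℤ,
      (∀ m : ℕ, Polynomial.aeval (m : ℚ) Q =
        ∑ᶠ c : X → Fin m, (Nat.card (stab H c) : ℚ) * E p (stab H c)) ∧
      ∀ (G : Type) [Group G] [Finite G],
        (Nat.card H : ℚ) * E p (Wreath G H X) = Polynomial.aeval (E p G) Q) ∧
    (∀ (G : Type) [Group G] [Finite G], Nat.card H * numDefectZero p (Wreath G H X) =
      ∑ᶠ c : X → Fin (numDefectZero p G),
        Nat.card (stab H c) * numDefectZero p (stab H c)) ∧
    ∀ (G : Type) [Group G] [Finite G], KRC p G →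
      ((∀ c : X → Fin (numDefectZero p G), KRC p (stab H c)) ∨ IsPGroup p H ∨
        ¬ p ∣ Nat.card H) → KRC p (Wreath G H X) := by
  have hE : ∀ (G : Type) [Group G] [Finite G], E p G = (Pool.Agent.Q90.WR.altK p G : ℚ) :=
    fun G _ _ => (Pool.Agent.Y63.KR.altSum_classes (p := p) (G := G)).symm
  haveI := Fintype.ofFinite H
  haveI := Fintype.ofFinite X
  refine ⟨⟨Pool.Agent.W2helper32.KR.wpoly p H X, ?_, ?_⟩, ?_, ?_⟩
  · intro m
    have h1 := Pool.Agent.W2helper32.KR.wpoly_nat (p := p) (H := H) (X := X) m
    have h2 : Polynomial.aeval (m : ℚ) (Pool.Agent.W2helper32.KR.wpoly p H X) =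
        (((Pool.Agent.W2helper32.KR.wpoly p H X).eval (m : ℤ) : ℤ) : ℚ) := by
      have := Polynomial.aeval_algebraMap_apply ℚ (m : ℤ) (Pool.Agent.W2helper32.KR.wpoly p H X)
      simpa using this
    rw [h2, h1, finsum_eq_sum_of_fintype]
    push_cast
    refine Finset.sum_congr rfl fun c _ => ?_
    rw [hE]
    rfl
  · intro G _ _
    haveI := Fintype.ofFinite G
    have h1 := Pool.Agent.W2helper32.KR.altK_wrX (p := p) (G := G) (H := H) (X := X)
    have h2 : Polynomial.aeval (Pool.Agent.Q90.WR.altK p G : ℚ)
        (Pool.Agent.W2helper32.KR.wpoly p H X) =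
        (((Pool.Agent.W2helper32.KR.wpoly p H X).eval (Pool.Agent.Q90.WR.altK p G) : ℤ) : ℚ) := by
      have := Polynomial.aeval_algebraMap_apply ℚ (Pool.Agent.Q90.WR.altK p G)
        (Pool.Agent.W2helper32.KR.wpoly p H X)
      simpa using this
    rw [hE, hE, h2, ← h1]
    push_cast
    rfl
  · intro G _ _
    haveI := Fintype.ofFinite G
    have h1 := Pool.Agent.W2helper32.KR.z_wrX (p := p) (G := G) (H := H) (X := X)
    rw [finsum_eq_sum_of_fintype]
    have h2 : ((Nat.card H * numDefectZero p (Wreath G H X) : ℕ) : ℤ) =
        ((∑ c : X → Fin (numDefectZero p G),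
          Nat.card (stab H c) * numDefectZero p (stab H c) : ℕ) : ℤ) := by
      push_cast
      exact h1
    exact_mod_cast h2
  · intro G _ _ hG h
    rcases h with h | h | h
    · exact Pool.Agent.W2helper32.KR.krc_wrX hG h
    · exact Pool.Agent.W2helper32.KR.krc_wrX_pgroup hG h
    · exact Pool.Agent.W2helper32.KR.krc_wrX_coprime hG h

end Pool.Agent.Results.MP_b6945b_al.WreathProducts
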